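import Pool.Agent.H73.GWQ.Stmts

/-!
# Row PPQ of project GWQ (popping pieces; after the row PPS of helper33)
-/

set_option autoImplicit false

namespace GWQ

open GWT

variable {G V : Type*} [Group G] (D : QM G V)

theorem PPQ : PPQStmt D := by
  intro θ q σ
  induction σ with
  | nil =>
    intro v m hv hm _
    have hv' : v = D.f 1 := hv
    subst hv'
    have h0 : D.T.dist (D.f 1) m = 0 := by
      unfold Bt at hm
      have h1 : D.T.dist (D.f 1) (D.f 1) = 0 := SimpleGraph.dist_self
      omega
    have hm0 : D.f 1 = m := dzero D.tree h0
    subst hm0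
    refine ⟨0, le_refl _, rfl, Or.inl ?_⟩
    have h1 : D.T.dist (D.f 1) (D.f 1) = 0 := SimpleGraph.dist_self
    omega
  | cons c σ ih =>
    intro v m hv hm hK
    obtain ⟨g, u, hu, hside, hσ⟩ := hv
    rcases Nat.lt_or_ge (D.T.dist (D.f 1) m) (D.T.dist (D.f 1) u) with hlt | hge
    · -- `m` before `u`
      obtain ⟨hmu, hmuv⟩ := ORD D.tree hm hu (le_of_lt hlt)
      have e1 : D.T.dist m u + D.T.dist u v = D.T.dist m v := hmuv
      obtain ⟨r, hr, hpc, hor⟩ := ih u m hσ hmu (by
        intro c' g' P Q h1 h2 h3
        refine hK c' g' P Q ?_ h2 h3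
        have t1 := dtri D.tree Q u v
        have t2 := dtri D.tree m P v
        have t3 := dtri D.tree P Q v
        omega)
      refine ⟨r + 1, by simpa using hr, by simpa using hpc, ?_⟩
      rcases hor with hle | ⟨c', hc', hq⟩
      · rcases Nat.lt_or_ge (D.T.dist u v) θ with h | h
        · left
          have : θ * (r + 1 + 1) = θ * (r + 1) + θ := by ring
          omega
        · right
          refine ⟨c, by simp, hK c g u v ?_ h ?_⟩
          · have e2 : D.T.dist v v = 0 := SimpleGraph.dist_self
            omega
          · exact hside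
      · right
        exact ⟨c', by simp [List.take_succ_cons, hc'], hq⟩
    · -- `u` before `m`
      obtain ⟨hum, humv⟩ := ORD D.tree hu hm hge
      have e1 : D.T.dist u m + D.T.dist m v = D.T.dist u v := humv
      refine ⟨0, Nat.zero_le _, ⟨g, u, hum, ?_, hσ⟩, ?_⟩
      · have t1 := dtri D.tree m v (D.f (g * c))
        have t2 := dtri D.tree (D.f g) u (D.f (g * c))
        have t3 := dtri D.tree u m (D.f (g * c))
        omega
      · rcases Nat.lt_or_ge (D.T.dist m v) θ with h | h
        · left
          have : θ * (0 + 1) = θ := by ring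
          omega
        · right
          refine ⟨c, by simp, hK c g m v ?_ h ?_⟩
          · have e2 : D.T.dist v v = 0 := SimpleGraph.dist_self
            have e3 : D.T.dist m m = 0 := SimpleGraph.dist_self
            omega
          · have t1 := dtri D.tree (D.f g) u m
            have t2 := dtri D.tree (D.f g) m (D.f (g * c))
            have t3 := dtri D.tree m v (D.f (g * c))
            omega

end GWQ
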